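import Pool.Agent.H749R6.CM.Main
import Pool.Agent.H361R2.PP.Asm2
import Pool.Agent.H438R2.DL.App2

/-! Exactly `m` primes just below the multiples of almost every real number. -/

set_option autoImplicit false

namespace Pool.Agent.H749R6.CM

open MeasureTheory

theorem pois (lam Lam : ℝ) (m : ℕ) (h1 : 0 < lam) (h2 : 0 ≤ Lam) : ∃ c : ℝ, 0 < c ∧ ∃ N₀ : ℕ,
    ∀ N : ℕ, N₀ ≤ N → c * N ≤ ({n : ℕ | n ∈ Finset.Icc 1 N ∧
      Nat.primeCounting ⌊(n : ℝ) + lam * Real.log n⌋₊ = Nat.primeCounting n + m ∧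
      Nat.primeCounting n = Nat.primeCounting ⌊(n : ℝ) - Lam * Real.log n⌋₊}.ncard : ℝ) := by
  classical
  obtain ⟨c, hc, N₀, h⟩ := Pool.Agent.H361R2.PP.poissonP lam Lam m h1 h2
  refine ⟨c, hc, N₀, fun N hN => (h N hN).trans ?_⟩
  rw [← Set.ncard_coe_finset]
  apply Nat.cast_le.2
  apply Set.ncard_le_ncard
  · intro n hn
    rw [Finset.mem_coe, Finset.mem_filter] at hn
    exact hn
  · exact (Finset.finite_toSet (Finset.Icc 1 N)).subset fun n hn => hn.1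

theorem multiples : ∀ (δ lam Lam : ℝ) (m : ℕ), 0 < δ → δ < 1 → 0 < lam → lam ≤ Lam →
    ∃ c κ : ℝ, 0 < c ∧ 0 < κ ∧ ∃ Y₀ : ℝ, ∀ Y : ℝ, Y₀ ≤ Y →
      ∃ E : Set ℝ, MeasurableSet E ∧ volume E ≤ ENNReal.ofReal (Y ^ (1 - κ)) ∧
      ∀ x : ℝ, Y ≤ x → x ≤ 2 * Y → x ∉ E →
        c * Y ^ δ ≤ ({k : ℕ | (k : ℝ) ≤ Y ^ δ ∧
          {p : ℕ | p.Prime ∧ k * x - lam * Real.log (k * x) < p ∧ (p : ℝ) < k * x}.ncard = m ∧
          ∀ p : ℕ, p.Prime → k * x - Lam * Real.log (k * x) < p → (p : ℝ) < k * x →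
            k * x - lam * Real.log (k * x) < p}.ncard : ℝ) :=
  main_abs pois Pool.Agent.H438R2.DL.pairs_asymp

end Pool.Agent.H749R6.CM
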