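import Mathlib

/-! Exactly `m` primes just below a real number. -/

set_option autoImplicit false

namespace Pool.Agent.H749R6.CM

open Finset

lemma ncard_primes (n g : ℕ) (h : n ≤ g) :
    {p : ℕ | p.Prime ∧ n < p ∧ p ≤ g}.ncard + Nat.primeCounting n = Nat.primeCounting g := by
  classical
  have h1 : {p : ℕ | p.Prime ∧ n < p ∧ p ≤ g} = ((Finset.Ioc n g).filter Nat.Prime : Finset ℕ) := by
    ext p
    simp only [Set.mem_ofPred_eq, Finset.coe_filter, Finset.mem_Ioc]
    tauto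
  have e : ∀ k, Nat.primeCounting k = ((Finset.range (k + 1)).filter Nat.Prime).card := fun k => by
    rw [Nat.primeCounting, Nat.primeCounting', Nat.count_eq_card_filter_range]
  rw [h1, Set.ncard_coe_finset, e n, e g, ← Finset.card_union_of_disjoint]
  · congr 1
    ext p
    simp only [Finset.mem_union, Finset.mem_filter, Finset.mem_Ioc, Finset.mem_range]
    constructor
    · rintro (⟨⟨h2, h3⟩, h4⟩ | ⟨h2, h3⟩)
      · exact ⟨by omega, h4⟩
      · exact ⟨by omega, h3⟩
    · rintro ⟨h2, h3⟩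
      by_cases h4 : n < p
      · exact Or.inl ⟨⟨h4, by omega⟩, h3⟩
      · exact Or.inr ⟨by omega, h3⟩
  · rw [Finset.disjoint_left]
    intro p hp hp'
    rw [Finset.mem_filter, Finset.mem_Ioc] at hp
    rw [Finset.mem_filter, Finset.mem_range] at hp'
    omega

lemma pc_lt {a n p : ℕ} (hp : p.Prime) (h1 : a < p) (h2 : p ≤ n) :
    Nat.primeCounting a < Nat.primeCounting n := by
  have h3 := ncard_primes a n (by omega)
  have h4 : 0 < {p : ℕ | p.Prime ∧ a < p ∧ p ≤ n}.ncard := by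
    rw [Set.ncard_pos ((Set.finite_Iic n).subset fun q hq => hq.2.2)]
    exact ⟨p, hp, h1, h2⟩
  omega

theorem local_property (lam Lam : ℝ) (m : ℕ) (hlam : 0 < lam) (hLam : lam ≤ Lam) (n : ℕ)
    (hn1 : 1 ≤ n) (hn2 : 1 ≤ lam / 2 * Real.log n)
    (hn3 : (n : ℝ) + lam / 2 * Real.log n + 1 ≤ (n : ℝ) ^ 2)
    (h1 : Nat.primeCounting ⌊(n : ℝ) + lam / 2 * Real.log n⌋₊ = Nat.primeCounting n + m)
    (h2 : Nat.primeCounting n = Nat.primeCounting ⌊(n : ℝ) - 2 * Lam * Real.log n⌋₊) (y : ℝ)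
    (hy1 : (⌊(n : ℝ) + lam / 2 * Real.log n⌋₊ : ℝ) < y)
    (hy2 : y < ⌊(n : ℝ) + lam / 2 * Real.log n⌋₊ + 1) :
    {p : ℕ | p.Prime ∧ y - lam * Real.log y < p ∧ (p : ℝ) < y}.ncard = m ∧
      ∀ p : ℕ, p.Prime → y - Lam * Real.log y < p → (p : ℝ) < y → y - lam * Real.log y < p := by
  have hn0 : (0 : ℝ) < n := by exact_mod_cast hn1
  set g : ℕ := ⌊(n : ℝ) + lam / 2 * Real.log n⌋₊ with hg
  have hL0 : 0 ≤ Real.log n := Real.log_natCast_nonneg n
  have hgle : (g : ℝ) ≤ (n : ℝ) + lam / 2 * Real.log n := Nat.floor_le (by positivity)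
  have hng : n ≤ g := by
    rw [hg]
    apply Nat.le_floor
    linarith
  have hngR : (n : ℝ) ≤ g := by exact_mod_cast hng
  have hyn : (n : ℝ) ≤ y := by linarith
  have hy0 : 0 < y := by linarith
  have hlogy1 : Real.log n ≤ Real.log y := Real.log_le_log hn0 hyn
  have hlogy2 : Real.log y ≤ 2 * Real.log n := by
    have h3 : y ≤ (n : ℝ) ^ 2 := by linarith
    have h4 : Real.log y ≤ Real.log ((n : ℝ) ^ 2) := Real.log_le_log hy0 h3
    rw [Real.log_pow] at h4
    exact_mod_cast h4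
  have hA : y - lam * Real.log y ≤ n := by
    have h3 : lam * Real.log n ≤ lam * Real.log y := mul_le_mul_of_nonneg_left hlogy1 hlam.le
    linarith
  have hB : (n : ℝ) - 2 * Lam * Real.log n ≤ y - Lam * Real.log y := by
    have h3 : Lam * Real.log y ≤ Lam * (2 * Real.log n) :=
      mul_le_mul_of_nonneg_left hlogy2 (by linarith)
    linarith
  have hlt : ∀ p : ℕ, (p : ℝ) < y → p ≤ g := by
    intro p hp
    have h3 : (p : ℝ) < g + 1 := by linarith
    have h4 : p < g + 1 := by exact_mod_cast h3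
    omega
  have hgt : ∀ p : ℕ, p.Prime → y - Lam * Real.log y < p → (p : ℝ) < y → n < p := by
    intro p hp hp1 hp2
    by_contra hcon
    push Not at hcon
    have h3 : ⌊(n : ℝ) - 2 * Lam * Real.log n⌋₊ < p := by
      rw [Nat.floor_lt' hp.ne_zero]
      linarith
    have h4 := pc_lt hp h3 hcon
    omega
  refine ⟨?_, ?_⟩
  · have hset : {p : ℕ | p.Prime ∧ y - lam * Real.log y < p ∧ (p : ℝ) < y} =
        {p : ℕ | p.Prime ∧ n < p ∧ p ≤ g} := by
      ext p
      constructor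
      · rintro ⟨hp, hp1, hp2⟩
        refine ⟨hp, hgt p hp ?_ hp2, hlt p hp2⟩
        have h3 : lam * Real.log y ≤ Lam * Real.log y :=
          mul_le_mul_of_nonneg_right hLam (by linarith)
        linarith
      · rintro ⟨hp, hp1, hp2⟩
        have h3 : (n : ℝ) < p := by exact_mod_cast hp1
        have h4 : (p : ℝ) ≤ g := by exact_mod_cast hp2
        exact ⟨hp, by linarith, by linarith⟩
    rw [hset]
    have h3 := ncard_primes n g hng
    omega
  · intro p hp hp1 hp2
    have h3 : (n : ℝ) < p := by exact_mod_cast hgt p hp hp1 hp2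
    linarith

end Pool.Agent.H749R6.CM
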