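import Mathlib
import Pool.Agent.H749R6.CM.Local

/-! Dyadic pigeonhole; from pairs to multiples. -/

set_option autoImplicit false

namespace Pool.Agent.H749R6.CM

open Finset Filter Topology

lemma dyadic (X v : ℕ) : ∀ I : ℕ, X < v → v ≤ 2 ^ I * X →
    ∃ i < I, 2 ^ i * X < v ∧ v ≤ 2 * (2 ^ i * X) := by
  intro I
  induction I with
  | zero =>
    intro h1 h2
    rw [pow_zero, one_mul] at h2
    omega
  | succ I ih =>
    intro h1 h2
    by_cases h3 : v ≤ 2 ^ I * X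
    · obtain ⟨i, hi, h4⟩ := ih h1 h3
      exact ⟨i, by omega, h4⟩
    · refine ⟨I, by omega, by omega, ?_⟩
      rw [pow_succ] at h2
      calc v ≤ 2 ^ I * 2 * X := h2
        _ = 2 * (2 ^ I * X) := by ring

lemma pigeon (S : Finset ℕ) (X I : ℕ) (hI : 0 < I) (h : ∀ v ∈ S, X < v ∧ v ≤ 2 ^ I * X) :
    ∃ i < I, (S.card : ℝ) / I ≤
      ((S.filter (fun v => v ∈ Ioc (2 ^ i * X) (2 * (2 ^ i * X)))).card : ℝ) := by
  classical
  by_contra hcon
  push Not at hcon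
  have h1 : S.card ≤ ∑ i ∈ Finset.range I,
      (S.filter (fun v => v ∈ Ioc (2 ^ i * X) (2 * (2 ^ i * X)))).card := by
    refine le_trans (Finset.card_le_card ?_) Finset.card_biUnion_le
    intro v hv
    obtain ⟨i, hi, h2, h3⟩ := dyadic X v I (h v hv).1 (h v hv).2
    rw [Finset.mem_biUnion]
    exact ⟨i, Finset.mem_range.2 hi, Finset.mem_filter.2 ⟨hv, Finset.mem_Ioc.2 ⟨h2, h3⟩⟩⟩
  have h2 : (S.card : ℝ) ≤ ∑ i ∈ Finset.range I,
      ((S.filter (fun v => v ∈ Ioc (2 ^ i * X) (2 * (2 ^ i * X)))).card : ℝ) := by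
    exact_mod_cast h1
  have h3 : ∑ i ∈ Finset.range I,
      ((S.filter (fun v => v ∈ Ioc (2 ^ i * X) (2 * (2 ^ i * X)))).card : ℝ) <
      ∑ i ∈ Finset.range I, (S.card : ℝ) / I := by
    apply Finset.sum_lt_sum_of_nonempty (Finset.nonempty_range_iff.2 hI.ne')
    intro i hi
    exact hcon i (Finset.mem_range.1 hi)
  rw [Finset.sum_const, Finset.card_range, nsmul_eq_mul] at h3
  have hI' : (I : ℝ) ≠ 0 := by exact_mod_cast hI.ne'
  rw [mul_div_cancel₀ _ hI'] at h3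
  linarith

/-- the shifted integer -/
noncomputable def gg (lam : ℝ) (n : ℕ) : ℕ := ⌊(n : ℝ) + lam / 2 * Real.log n⌋₊

lemma gg_inj (lam : ℝ) (hlam : 0 < lam) {n n' : ℕ} (hn : 1 ≤ n) (h : n < n') :
    gg lam n < gg lam n' := by
  unfold gg
  have hL0 : 0 ≤ Real.log n := Real.log_natCast_nonneg n
  have hn0 : (0 : ℝ) < n := by exact_mod_cast hn
  have h1 : (n : ℝ) + 1 ≤ n' := by exact_mod_cast h
  have h2 : Real.log n ≤ Real.log n' := Real.log_le_log hn0 (by linarith)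
  have h3 : (n : ℝ) + lam / 2 * Real.log n + 1 ≤ n' + lam / 2 * Real.log n' := by
    have := mul_le_mul_of_nonneg_left h2 (show 0 ≤ lam / 2 by positivity)
    linarith
  have h4 : ⌊(n : ℝ) + lam / 2 * Real.log n⌋₊ + 1 ≤ ⌊(n' : ℝ) + lam / 2 * Real.log n'⌋₊ := by
    rw [← Nat.floor_add_one (by positivity)]
    exact Nat.floor_le_floor h3
  omega

/-- from pairs to multiples -/
theorem pairs_le (P : Finset ℕ) (Q : ℝ → Prop) (D x : ℝ) (hx : 0 < x)
    (hPD : ∀ g ∈ P, (g : ℝ) + 1 ≤ D * x)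
    (hPQ : ∀ g ∈ P, ∀ y : ℝ, (g : ℝ) < y → y < g + 1 → Q y) :
    {q : ℕ × ℕ | q.2 ∈ P ∧ (q.1 : ℝ) * x - 1 < q.2 ∧ (q.2 : ℝ) < q.1 * x}.ncard ≤
      {k : ℕ | (k : ℝ) ≤ D ∧ Q (k * x)}.ncard := by
  have hfin : {k : ℕ | (k : ℝ) ≤ D ∧ Q (k * x)}.Finite := by
    refine (Set.finite_Iic ⌊D⌋₊).subset fun k hk => ?_
    exact Nat.le_floor hk.1
  refine Set.ncard_le_ncard_of_injOn (fun q => q.1) ?_ ?_ hfin
  · rintro ⟨k, n⟩ ⟨hn, h1, h2⟩
    simp only at hn h1 h2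
    refine ⟨?_, hPQ n hn _ h2 (by linarith)⟩
    have h3 : (k : ℝ) * x ≤ D * x := by
      have := hPD n hn
      linarith
    exact le_of_mul_le_mul_right h3 hx
  · rintro ⟨k, n⟩ ⟨hn, h1, h2⟩ ⟨k', n'⟩ ⟨hn', h1', h2'⟩ hk
    simp only at hn h1 h2 hn' h1' h2' hk
    subst hk
    have h3 : (n : ℝ) < n' + 1 := by linarith
    have h4 : (n' : ℝ) < n + 1 := by linarith
    have h5 : n < n' + 1 := by exact_mod_cast h3
    have h6 : n' < n + 1 := by exact_mod_cast h4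
    have : n = n' := by omega
    rw [this]

end Pool.Agent.H749R6.CM
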