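import Mathlib
import Pool.Agent.H749R6.CM.Pig

/-! Exactly `m` primes just below the multiples of almost every real number: assembly. -/

set_option autoImplicit false

namespace Pool.Agent.H749R6.CM

open Finset MeasureTheory Filter Topology

/-- the event at the real number `y` -/
def Q (lam Lam : ℝ) (m : ℕ) (y : ℝ) : Prop :=
  {p : ℕ | p.Prime ∧ y - lam * Real.log y < p ∧ (p : ℝ) < y}.ncard = m ∧
    ∀ p : ℕ, p.Prime → y - Lam * Real.log y < p → (p : ℝ) < y → y - lam * Real.log y < p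

lemma thresh (lam : ℝ) (hlam : 0 < lam) : ∃ n₂ : ℕ, 1 ≤ n₂ ∧ ∀ n : ℕ, n₂ ≤ n →
    1 ≤ lam / 2 * Real.log n ∧ (n : ℝ) + lam / 2 * Real.log n + 1 ≤ (n : ℝ) ^ 2 ∧
    lam / 2 * Real.log n ≤ n := by
  have h1 : ∀ᶠ t : ℝ in atTop, 1 ≤ lam / 2 * Real.log t :=
    (Real.tendsto_log_atTop.const_mul_atTop (by positivity : 0 < lam / 2)).eventually_ge_atTop 1
  have h2 : ∀ᶠ t : ℝ in atTop, lam / 2 * Real.log t ≤ t := by
    have h := (Real.isLittleO_log_id_atTop.bound (show 0 < 2 / lam by positivity))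
    filter_upwards [h, eventually_ge_atTop (1 : ℝ)] with t ht ht1
    rw [Real.norm_eq_abs, abs_of_nonneg (Real.log_nonneg ht1)] at ht
    simp only [id, Real.norm_eq_abs, abs_of_nonneg (show 0 ≤ t by linarith)] at ht
    calc lam / 2 * Real.log t ≤ lam / 2 * (2 / lam * t) := by gcongr
      _ = t := by field_simp
  obtain ⟨t₀, ht₀⟩ := ((h1.and h2).and (eventually_ge_atTop (3 : ℝ))).exists_forall_of_atTop
  refine ⟨max 1 ⌈t₀⌉₊, le_max_left _ _, fun n hn => ?_⟩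
  have h3 : t₀ ≤ n := (Nat.le_ceil t₀).trans (by exact_mod_cast (le_max_right _ _).trans hn)
  obtain ⟨⟨h4, h5⟩, h6⟩ := ht₀ n h3
  refine ⟨h4, ?_, h5⟩
  nlinarith

theorem main_abs
    (hpois : ∀ (lam Lam : ℝ) (m : ℕ), 0 < lam → 0 ≤ Lam → ∃ c : ℝ, 0 < c ∧ ∃ N₀ : ℕ, ∀ N : ℕ,
      N₀ ≤ N → c * N ≤ ({n : ℕ | n ∈ Finset.Icc 1 N ∧
        Nat.primeCounting ⌊(n : ℝ) + lam * Real.log n⌋₊ = Nat.primeCounting n + m ∧
        Nat.primeCounting n = Nat.primeCounting ⌊(n : ℝ) - Lam * Real.log n⌋₊}.ncard : ℝ))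
    (hpairs : ∀ δ : ℝ, 0 < δ → δ < 1 →
      ∃ κ : ℝ, 0 < κ ∧ ∃ X₀ : ℕ, ∀ X : ℕ, X₀ ≤ X → ∀ P : Finset ℕ, P ⊆ Ioc X (2 * X) →
        ∀ Y h : ℝ, 0 < Y → Y ≤ (X : ℝ) ^ (1 - δ) → (X : ℝ) ^ (-κ) ≤ h → h ≤ Y →
        ∃ E : Set ℝ, MeasurableSet E ∧ volume E ≤ ENNReal.ofReal (Y * (X : ℝ) ^ (-κ)) ∧
        ∀ x : ℝ, Y ≤ x → x ≤ 2 * Y → x ∉ E →
          |({q : ℕ × ℕ | q.2 ∈ P ∧ (q.1 : ℝ) * x - h < q.2 ∧ (q.2 : ℝ) < q.1 * x}.ncard : ℝ) -
            (h / x) * P.card| ≤ (h / x) * (X : ℝ) ^ (1 - κ)) :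
    ∀ (δ lam Lam : ℝ) (m : ℕ), 0 < δ → δ < 1 → 0 < lam → lam ≤ Lam → ∃ c κ : ℝ, 0 < c ∧ 0 < κ ∧
      ∃ Y₀ : ℝ, ∀ Y : ℝ, Y₀ ≤ Y →
        ∃ E : Set ℝ, MeasurableSet E ∧ volume E ≤ ENNReal.ofReal (Y ^ (1 - κ)) ∧
        ∀ x : ℝ, Y ≤ x → x ≤ 2 * Y → x ∉ E →
          c * Y ^ δ ≤ ({k : ℕ | (k : ℝ) ≤ Y ^ δ ∧ Q lam Lam m (k * x)}.ncard : ℝ) := by
  classical
  intro δ lam Lam m hδ hδ1 hlam hLam
  obtain ⟨κ₁, hκ₁, Xp, hP⟩ := hpairs (δ / 4) (by linarith) (by linarith)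
  obtain ⟨c₀, hc₀, N₀, hN₀⟩ := hpois (lam / 2) (2 * Lam) m (by positivity) (by linarith)
  obtain ⟨n₂, hn₂1, hn₂⟩ := thresh lam hlam
  set c₁ : ℝ := min c₀ 1 with hc₁d
  have hc₁ : 0 < c₁ := lt_min hc₀ one_pos
  have hc₁1 : c₁ ≤ 1 := min_le_right _ _
  have hc₁0 : c₁ ≤ c₀ := min_le_left _ _
  obtain ⟨I, hI⟩ := pow_unbounded_of_one_lt (8 / c₁) (by norm_num : (1 : ℝ) < 2)
  have hI0 : 0 < I := by
    rcases Nat.eq_zero_or_pos I with h | h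
    · exfalso
      rw [h, pow_zero, div_lt_one hc₁] at hI
      linarith
    · exact h
  have hIR : (0 : ℝ) < I := by exact_mod_cast hI0
  refine ⟨c₁ / (64 * I), κ₁, by positivity, hκ₁, ?_⟩
  have ev1 : ∀ᶠ Y : ℝ in atTop, 32 / c₁ ≤ Y ^ (δ / 2) :=
    (tendsto_rpow_atTop (by positivity)).eventually_ge_atTop _
  have ev2 : ∀ᶠ Y : ℝ in atTop, 2 ^ I * (4 * I) / c₁ ≤ Y ^ κ₁ :=
    (tendsto_rpow_atTop hκ₁).eventually_ge_atTop _
  obtain ⟨Y₀, hY₀⟩ := (((ev1.and ev2).and (eventually_ge_atTop (4 / c₁))).and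
    ((eventually_ge_atTop ((N₀ + Xp + n₂ + 8 : ℕ) : ℝ)))).exists_forall_of_atTop
  refine ⟨Y₀, fun Y hY => ?_⟩
  obtain ⟨⟨⟨g1, g2⟩, g3⟩, g4⟩ := hY₀ Y hY
  push_cast at g4
  have hN₀R : (0 : ℝ) ≤ N₀ := Nat.cast_nonneg _
  have hXpR : (0 : ℝ) ≤ Xp := Nat.cast_nonneg _
  have hn₂R : (0 : ℝ) ≤ n₂ := Nat.cast_nonneg _
  have hY8 : 8 ≤ Y := by linarith
  have hY0 : 0 < Y := by linarith
  have hY1 : 1 ≤ Y := by linarith
  have hA : Y ^ (1 + δ) = Y * Y ^ δ := by rw [Real.rpow_add hY0, Real.rpow_one]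
  have h32 : 32 ≤ 32 / c₁ := by
    rw [le_div_iff₀ hc₁]
    linarith
  have hδY : 32 / c₁ ≤ Y ^ δ := g1.trans (Real.rpow_le_rpow_of_exponent_le hY1 (by linarith))
  have hδ32 : 32 ≤ Y ^ δ := h32.trans hδY
  have hYδ0 : 0 < Y ^ δ := by positivity
  set N : ℕ := ⌊Y ^ (1 + δ) / 4⌋₊ with hNd
  have hNle : (N : ℝ) ≤ Y ^ (1 + δ) / 4 := Nat.floor_le (by positivity)
  have hNge : Y ^ (1 + δ) / 8 ≤ N := by
    have h1 : Y ^ (1 + δ) / 4 < (N : ℝ) + 1 := Nat.lt_floor_add_one _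
    have h2 : 8 ≤ Y ^ (1 + δ) := by
      rw [hA]
      nlinarith
    linarith
  have hNY : Y ≤ N := by
    refine le_trans ?_ hNge
    rw [hA]
    nlinarith
  set X' : ℕ := ⌊c₁ * N / 2⌋₊ with hX'd
  have hX'le : (X' : ℝ) ≤ c₁ * N / 2 := Nat.floor_le (by positivity)
  have hX'ge : c₁ * N / 4 ≤ X' := by
    have h1 : c₁ * N / 2 < (X' : ℝ) + 1 := Nat.lt_floor_add_one _
    have h2 : 4 / c₁ ≤ (N : ℝ) := g3.trans hNY
    rw [div_le_iff₀ hc₁] at h2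
    nlinarith
  have hX'Y1 : c₁ * Y ^ (1 + δ) / 32 ≤ X' := by
    refine le_trans ?_ hX'ge
    nlinarith
  have hX'Y : Y ≤ X' := by
    refine le_trans ?_ hX'Y1
    rw [hA]
    rw [div_le_iff₀ hc₁] at hδY
    nlinarith
  -- the set of integers
  set S : Set ℕ := {n : ℕ | n ∈ Finset.Icc 1 N ∧
        Nat.primeCounting ⌊(n : ℝ) + lam / 2 * Real.log n⌋₊ = Nat.primeCounting n + m ∧
        Nat.primeCounting n = Nat.primeCounting ⌊(n : ℝ) - 2 * Lam * Real.log n⌋₊} with hS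
  have hSN : c₀ * N ≤ (S.ncard : ℝ) := hN₀ N (by
    have : (N₀ : ℝ) ≤ N := by linarith
    exact_mod_cast this)
  set S' : Finset ℕ := (Finset.Icc 1 N).filter (fun n => X' < n ∧ n ∈ S) with hS'
  have hScard : (S.ncard : ℝ) ≤ S'.card + X' := by
    have h1 : S ⊆ ((S' ∪ Finset.Icc 1 X' : Finset ℕ) : Set ℕ) := by
      intro n hn
      rw [Finset.mem_coe, Finset.mem_union]
      by_cases h : X' < n
      · exact Or.inl (Finset.mem_filter.2 ⟨hn.1, h, hn⟩)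
      · right
        rw [Finset.mem_Icc]
        exact ⟨(Finset.mem_Icc.1 hn.1).1, by omega⟩
    have h2 := Set.ncard_le_ncard h1 (Finset.finite_toSet _)
    rw [Set.ncard_coe_finset] at h2
    have h3 := h2.trans (Finset.card_union_le _ _)
    rw [Nat.card_Icc, Nat.add_sub_cancel] at h3
    exact_mod_cast h3
  have hS'card : c₁ * N / 2 ≤ (S'.card : ℝ) := by
    have : c₁ * N ≤ c₀ * N := by gcongr
    linarith
  set T : Finset ℕ := S'.image (gg lam) with hT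
  have hTcard : T.card = S'.card := by
    apply Finset.card_image_of_injOn
    intro a ha b hb hab
    have ha1 := (Finset.mem_Icc.1 (Finset.mem_filter.1 ha).1).1
    have hb1 := (Finset.mem_Icc.1 (Finset.mem_filter.1 hb).1).1
    by_contra hne
    rcases Nat.lt_or_gt_of_ne hne with h | h
    · exact absurd hab (gg_inj lam hlam ha1 h).ne
    · exact absurd hab (gg_inj lam hlam hb1 h).ne'
  have hn₂X : n₂ ≤ X' := by
    have : (n₂ : ℝ) ≤ X' := by linarith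
    exact_mod_cast this
  -- the elements of `T`
  have hTmem : ∀ v ∈ T, ∃ n : ℕ, X' < n ∧ n ≤ N ∧ n ∈ S ∧ gg lam n = v := by
    intro v hv
    obtain ⟨n, hn, rfl⟩ := Finset.mem_image.1 hv
    have := Finset.mem_filter.1 hn
    exact ⟨n, this.2.1, (Finset.mem_Icc.1 this.1).2, this.2.2, rfl⟩
  have hTle : ∀ v ∈ T, X' < v ∧ v ≤ 2 * N := by
    intro v hv
    obtain ⟨n, h1, h2, h3, rfl⟩ := hTmem v hv
    obtain ⟨t1, t2, t3⟩ := hn₂ n (by omega)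
    constructor
    · refine h1.trans_le ?_
      unfold gg
      apply Nat.le_floor
      linarith
    · have h4 : ((gg lam n : ℕ) : ℝ) ≤ 2 * N := by
        unfold gg
        refine (Nat.floor_le (by positivity)).trans ?_
        have : (n : ℝ) ≤ N := by exact_mod_cast h2
        linarith
      exact_mod_cast h4
  have h2I : 2 * N ≤ 2 ^ I * X' := by
    have h1 : (2 : ℝ) * N ≤ 2 ^ I * X' := by
      have h2 : 8 / c₁ * (c₁ * N / 4) ≤ 2 ^ I * X' := by gcongr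
      have h3 : 8 / c₁ * (c₁ * N / 4) = 2 * N := by
        field_simp
        ring
      linarith
    exact_mod_cast h1
  obtain ⟨i, hi, hpig⟩ := pigeon T X' I hI0 (fun v hv => ⟨(hTle v hv).1, (hTle v hv).2.trans h2I⟩)
  set X : ℕ := 2 ^ i * X' with hX
  set P : Finset ℕ := T.filter (fun v => v ∈ Ioc X (2 * X)) with hPd
  have hPsub : P ⊆ Ioc X (2 * X) := fun v hv => (Finset.mem_filter.1 hv).2
  have hX'X : X' ≤ X := by
    rw [hX]
    exact Nat.le_mul_of_pos_left _ (by positivity)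
  have hX'XR : (X' : ℝ) ≤ X := by exact_mod_cast hX'X
  have hXI : (X : ℝ) ≤ 2 ^ I * N := by
    have h1 : X ≤ 2 ^ I * X' := by
      rw [hX]
      exact Nat.mul_le_mul_right _ (Nat.pow_le_pow_right (by norm_num) hi.le)
    have h2 : (X : ℝ) ≤ 2 ^ I * X' := by exact_mod_cast h1
    have h3 : (X' : ℝ) ≤ N := by nlinarith
    calc (X : ℝ) ≤ 2 ^ I * X' := h2
      _ ≤ 2 ^ I * N := by gcongr
  have hXY : Y ≤ X := hX'Y.trans hX'XR
  have hX0 : (0 : ℝ) < X := by linarith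
  have hX1 : (1 : ℝ) ≤ X := by linarith
  have hYX : Y ≤ (X : ℝ) ^ (1 - δ / 4) := by
    have h1 : (c₁ / 32 * Y ^ (1 + δ)) ^ (1 - δ / 4) ≤ (X : ℝ) ^ (1 - δ / 4) := by
      apply Real.rpow_le_rpow (by positivity) _ (by linarith)
      refine le_trans ?_ hX'XR
      refine le_trans (le_of_eq ?_) hX'Y1
      ring
    refine le_trans ?_ h1
    rw [Real.mul_rpow (by positivity) (by positivity), ← Real.rpow_mul hY0.le]
    have h2 : c₁ / 32 ≤ (c₁ / 32) ^ (1 - δ / 4) := by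
      calc c₁ / 32 = (c₁ / 32) ^ (1 : ℝ) := (Real.rpow_one _).symm
        _ ≤ (c₁ / 32) ^ (1 - δ / 4) :=
          Real.rpow_le_rpow_of_exponent_ge (by positivity) (by linarith) (by linarith)
    have h3 : Y ^ (1 + δ / 2) ≤ Y ^ ((1 + δ) * (1 - δ / 4)) := by
      apply Real.rpow_le_rpow_of_exponent_le hY1
      nlinarith
    have h4 : Y ^ (1 + δ / 2) = Y * Y ^ (δ / 2) := by rw [Real.rpow_add hY0, Real.rpow_one]
    have h5 : Y ≤ c₁ / 32 * (Y * Y ^ (δ / 2)) := by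
      rw [div_le_iff₀ hc₁] at g1
      nlinarith
    calc Y ≤ c₁ / 32 * (Y * Y ^ (δ / 2)) := h5
      _ ≤ (c₁ / 32) ^ (1 - δ / 4) * Y ^ ((1 + δ) * (1 - δ / 4)) := by
          rw [← h4]
          apply mul_le_mul h2 h3 (by positivity) (by positivity)
  have hXκ : (X : ℝ) ^ (-κ₁) ≤ Y ^ (-κ₁) :=
    Real.rpow_le_rpow_of_nonpos hY0 hXY (by linarith)
  have hXκ1 : (X : ℝ) ^ (-κ₁) ≤ 1 := Real.rpow_le_one_of_one_le_of_nonpos hX1 (by linarith)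
  have hXpX : Xp ≤ X := by
    have : (Xp : ℝ) ≤ X := by linarith
    exact_mod_cast this
  obtain ⟨E, hE1, hE2, hE3⟩ := hP X hXpX P hPsub Y 1 hY0 hYX hXκ1 hY1
  refine ⟨E, hE1, hE2.trans (ENNReal.ofReal_le_ofReal ?_), fun x hx1 hx2 hxE => ?_⟩
  · rw [sub_eq_add_neg, Real.rpow_add hY0, Real.rpow_one]
    exact mul_le_mul_of_nonneg_left hXκ hY0.le
  have hx0 : 0 < x := hY0.trans_le hx1
  have h3 := (abs_le.1 (hE3 x hx1 hx2 hxE)).1
  have h5 := pairs_le P (Q lam Lam m) (Y ^ δ) x hx0 (by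
      intro g hg
      have h6 := (hTle g (Finset.mem_filter.1 hg).1).2
      have h7 : (g : ℝ) ≤ 2 * N := by exact_mod_cast h6
      have h8 : Y ^ δ * Y ≤ Y ^ δ * x := by gcongr
      rw [mul_comm (Y ^ δ) Y, ← hA] at h8
      have h9 : 8 ≤ Y ^ (1 + δ) := by
        rw [hA]
        nlinarith
      linarith) (by
      intro g hg y hy1 hy2
      obtain ⟨n, h6, h7, h8, rfl⟩ := hTmem g (Finset.mem_filter.1 hg).1
      obtain ⟨t1, t2, t3⟩ := hn₂ n (by omega)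
      exact local_property lam Lam m hlam hLam n (by omega) t1 t2 h8.2.1 h8.2.2 y hy1 hy2)
  have h5R : (({q : ℕ × ℕ | q.2 ∈ P ∧ (q.1 : ℝ) * x - 1 < q.2 ∧
      (q.2 : ℝ) < q.1 * x}.ncard : ℕ) : ℝ) ≤
      (({k : ℕ | (k : ℝ) ≤ Y ^ δ ∧ Q lam Lam m (k * x)}.ncard : ℕ) : ℝ) := by
    exact_mod_cast h5
  refine le_trans ?_ h5R
  have hPcard : c₁ * N / (2 * I) ≤ (P.card : ℝ) := by
    refine le_trans ?_ hpig
    rw [hTcard]
    rw [div_le_div_iff₀ (by positivity) hIR]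
    nlinarith
  have herr : (X : ℝ) ^ (1 - κ₁) ≤ c₁ * N / (4 * I) := by
    rw [sub_eq_add_neg, Real.rpow_add hX0, Real.rpow_one]
    have h6 : Y ^ (-κ₁) ≤ c₁ / (2 ^ I * (4 * I)) := by
      rw [Real.rpow_neg hY0.le, inv_le_comm₀ (by positivity) (by positivity), inv_div]
      exact g2
    calc (X : ℝ) * (X : ℝ) ^ (-κ₁) ≤ (2 ^ I * N) * (c₁ / (2 ^ I * (4 * I))) := by
          apply mul_le_mul hXI (hXκ.trans h6) (by positivity) (by positivity)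
      _ = c₁ * N / (4 * I) := by
          field_simp
  have hhalf : c₁ * N / (2 * I) = c₁ * N / (4 * I) + c₁ * N / (4 * I) := by
    field_simp
    ring
  have h7 : 1 / x * (c₁ * N / (4 * I)) ≤ 1 / x * (P.card : ℝ) - 1 / x * (X : ℝ) ^ (1 - κ₁) := by
    rw [← mul_sub]
    apply mul_le_mul_of_nonneg_left _ (by positivity)
    linarith
  have h8 : c₁ / (64 * I) * Y ^ δ ≤ 1 / x * (c₁ * N / (4 * I)) := by
    have h9 : c₁ / (64 * I) * Y ^ δ = 1 / (2 * Y) * (c₁ * (Y ^ (1 + δ) / 8) / (4 * I)) := by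
      rw [hA]
      field_simp
      ring
    rw [h9]
    gcongr
  linarith

end Pool.Agent.H749R6.CM
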